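import Mathlib

set_option autoImplicit false

open Matrix Module

namespace Pool.Agent.Results.MP_54d771_al.MixedBasis

/-- `M` is tridiagonal. -/
def Tridiag {K : Type} [Field K] {n : ℕ} (M : Matrix (Fin n) (Fin n) K) : Prop :=
  ∀ i j : Fin n, (i.val + 1 < j.val ∨ j.val + 1 < i.val) → M i j = 0

/-- `M` is irreducible tridiagonal. -/
def IrredTridiag {K : Type} [Field K] {n : ℕ} (M : Matrix (Fin n) (Fin n) K) : Prop :=
  Tridiag M ∧ ∀ i j : Fin n, (i.val + 1 = j.val ∨ j.val + 1 = i.val) → M i j ≠ 0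

/-- All diagonal entries of `M` are zero. -/
def ZeroDiag {K : Type} [Field K] {n : ℕ} (M : Matrix (Fin n) (Fin n) K) : Prop :=
  ∀ i : Fin n, M i i = 0

/-- The matrix of the linear map `X` in the basis `b`. -/
noncomputable def mat {K V : Type} [Field K] [AddCommGroup V] [Module K V] {n : ℕ}
    (b : Basis (Fin n) K V) (X : Module.End K V) : Matrix (Fin n) (Fin n) K :=
  LinearMap.toMatrix b b X

/-- `X` is diagonal in the basis `b` (that is, `b` consists of eigenvectors of `X`) with diagonal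
entries `t`. -/
def DiagIn {K V : Type} [Field K] [AddCommGroup V] [Module K V] {n : ℕ}
    (b : Basis (Fin n) K V) (X : Module.End K V) (t : Fin n → K) : Prop :=
  mat b X = Matrix.diagonal t

/-- The three term ratio condition `t (i-2) - t (i+1) = (q ^ 2 + q ^ (-2) + 1) (t (i-1) - t i)`. -/
def RatioIs {K : Type} [Field K] {n : ℕ} (t : Fin n → K) (q : K) : Prop :=
  ∀ (i : ℕ) (h : i + 3 < n), t ⟨i, by omega⟩ - t ⟨i + 3, h⟩
    = (q ^ 2 + (q ^ 2)⁻¹ + 1) * (t ⟨i + 1, by omega⟩ - t ⟨i + 2, by omega⟩)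

/-- `A, B` is a Leonard pair on `V` of diameter `n - 1` with `a_i = 0` and `a*_i = 0` for all `i`,
and with parameter `q` : in some basis `A` is diagonal and `B` is irreducible tridiagonal with
zero diagonal, in some basis `B` is diagonal and `A` is irreducible tridiagonal with zero
diagonal, and both eigenvalue sequences have ratio `q ^ 2 + q ^ (-2) + 1`. -/
def IsBipartiteLeonardPair {K V : Type} [Field K] [AddCommGroup V] [Module K V] (n : ℕ)
    (A B : Module.End K V) (q : K) : Prop :=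
  (∃ (b : Basis (Fin n) K V) (t : Fin n → K), DiagIn b A t ∧ IrredTridiag (mat b B) ∧
      ZeroDiag (mat b B) ∧ RatioIs t q) ∧
    (∃ (b : Basis (Fin n) K V) (t : Fin n → K), DiagIn b B t ∧ IrredTridiag (mat b A) ∧
      ZeroDiag (mat b A) ∧ RatioIs t q)

/-- The basis `c` is admissible: `A` and `B` are tridiagonal with zero diagonal in it. -/
def IsAdmissibleBasis {K V : Type} [Field K] [AddCommGroup V] [Module K V] {n : ℕ}
    (A B : Module.End K V) (c : Basis (Fin n) K V) : Prop :=
  Tridiag (mat c A) ∧ ZeroDiag (mat c A) ∧ Tridiag (mat c B) ∧ ZeroDiag (mat c B)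

/-- `c` consists of eigenvectors of `X`. -/
def IsEigenbasis {K V : Type} [Field K] [AddCommGroup V] [Module K V] {n : ℕ}
    (X : Module.End K V) (c : Basis (Fin n) K V) : Prop :=
  ∀ i, ∃ m : K, X (c i) = m • c i

section
variable {K : Type} [Field K]

/-- The basis of columns. -/
theorem exists_bas (v : Fin 4 → Fin 4 → K) (h : LinearIndependent K v) :
    ∃ c : Basis (Fin 4) K (Fin 4 → K), ∀ i, c i = v i :=
  ⟨basisOfLinearIndependentOfCardEqFinrank h (by simp), fun i => by simp⟩

theorem mat_of (c : Basis (Fin 4) K (Fin 4 → K)) (X : Module.End K (Fin 4 → K))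
    (N : Matrix (Fin 4) (Fin 4) K) (h : ∀ j, X (c j) = ∑ k, N k j • c k) : mat c X = N := by
  ext i j
  unfold mat
  rw [LinearMap.toMatrix_apply, h j, map_sum, Finset.sum_apply']
  simp only [map_smul, Finsupp.smul_apply, Basis.repr_self, smul_eq_mul]
  rw [Finset.sum_eq_single i]
  · simp
  · intro k _ hk
    rw [Finsupp.single_apply, if_neg hk, mul_zero]
  · intro h; exact absurd (Finset.mem_univ _) h

def mT (b : K) : Matrix (Fin 4) (Fin 4) K :=
  !![0, b + 1, 0, 0; 1, 0, b, 0; 0, b, 0, 1; 0, 0, b + 1, 0]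

def tD (b : K) : Fin 4 → K := ![b + 1, 1, -1, -(b + 1)]

theorem tri_mT (b : K) (hb : b ≠ 0) (hb1 : b + 1 ≠ 0) : IrredTridiag (mT b) ∧ ZeroDiag (mT b) := by
  refine ⟨⟨?_, ?_⟩, ?_⟩
  · intro i j h
    fin_cases i <;> fin_cases j <;> simp_all [mT]
  · intro i j h
    fin_cases i <;> fin_cases j <;> simp_all [mT]
  · intro i
    fin_cases i <;> simp [mT]

theorem ratio_tD (b q : K) (h : b = q ^ 2 + (q ^ 2)⁻¹) : RatioIs (tD b) q := by
  intro i hi
  have : i = 0 := by omega
  subst this
  rw [← h]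
  simp [tD]
  ring

theorem li_of (v : Fin 4 → Fin 4 → K)
    (h : ∀ x0 x1 x2 x3 : K, (∀ k, x0 * v 0 k + x1 * v 1 k + x2 * v 2 k + x3 * v 3 k = 0) →
      x0 = 0 ∧ x1 = 0 ∧ x2 = 0 ∧ x3 = 0) : LinearIndependent K v := by
  rw [Fintype.linearIndependent_iff]
  intro g hg
  obtain ⟨h0, h1, h2, h3⟩ := h (g 0) (g 1) (g 2) (g 3) (by
    intro k
    have := congrFun hg k
    simpa [Fin.sum_univ_four] using this)
  intro i
  fin_cases i
  · exact h0
  · exact h1
  · exact h2
  · exact h3

def vU (b : K) : Fin 4 → Fin 4 → K :=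
  ![![1, 1, 1, 1], ![b + 1, 1, -1, -(b + 1)], ![b + 1, -1, -1, b + 1], ![1, -1, 1, -1]]

theorem li_vU (b : K) (h2 : (2 : K) ≠ 0) (hb2 : b + 2 ≠ 0) : LinearIndependent K (vU b) := by
  apply li_of
  intro x0 x1 x2 x3 h
  have r0 := h 0
  have r1 := h 1
  have r2 := h 2
  have r3 := h 3
  simp [vU] at r0 r1 r2 r3
  have e1 : 2 * (b + 2) * x2 = 0 := by linear_combination r0 + r3 - r1 - r2
  have e2 : x2 = 0 := (mul_eq_zero.mp e1).resolve_left (mul_ne_zero h2 hb2)
  have e3 : 2 * (b + 2) * x1 = 0 := by linear_combination r0 - r3 + r1 - r2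
  have e4 : x1 = 0 := (mul_eq_zero.mp e3).resolve_left (mul_ne_zero h2 hb2)
  subst e2 e4
  have e5 : 2 * x0 = 0 := by linear_combination r1 + r2
  have e6 : 2 * x3 = 0 := by linear_combination r2 - r1
  exact ⟨(mul_eq_zero.mp e5).resolve_left h2, rfl, rfl, (mul_eq_zero.mp e6).resolve_left h2⟩

noncomputable def opA (b : K) : Module.End K (Fin 4 → K) := Matrix.toLin' (mT b)
noncomputable def opB (b : K) : Module.End K (Fin 4 → K) := Matrix.toLin' (Matrix.diagonal (tD b))

theorem opA_apply (b : K) (v : Fin 4 → K) : opA b v =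
    ![(b + 1) * v 1, v 0 + b * v 2, b * v 1 + v 3, (b + 1) * v 2] := by
  unfold opA
  rw [Matrix.toLin'_apply]
  ext i
  fin_cases i <;> simp [mT, Matrix.mulVec, dotProduct, Fin.sum_univ_four]

theorem opB_apply (b : K) (v : Fin 4 → K) : opB b v =
    ![(b + 1) * v 0, v 1, -v 2, -((b + 1) * v 3)] := by
  unfold opB
  rw [Matrix.toLin'_apply]
  ext i
  fin_cases i <;> simp [tD, Matrix.mulVec_diagonal] <;> ring

theorem isLP (b q : K) (h : b = q ^ 2 + (q ^ 2)⁻¹) (h2 : (2 : K) ≠ 0) (hb : b ≠ 0)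
    (hb1 : b + 1 ≠ 0) (hb2 : b + 2 ≠ 0) : IsBipartiteLeonardPair 4 (opA b) (opB b) q := by
  refine ⟨?_, ?_⟩
  · obtain ⟨c, hc⟩ := exists_bas (vU b) (li_vU b h2 hb2)
    refine ⟨c, tD b, ?_, ?_, ?_, ratio_tD b q h⟩
    · apply mat_of
      intro j
      funext k
      rw [Fin.sum_univ_four, hc, hc, hc, hc, hc]
      fin_cases j <;> fin_cases k <;> simp [opA_apply, vU, tD] <;> ring
    · have : mat c (opB b) = mT b := by
        apply mat_of
        intro j
        funext k
        rw [Fin.sum_univ_four, hc, hc, hc, hc, hc]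
        fin_cases j <;> fin_cases k <;> simp [opB_apply, vU, mT] <;> ring
      rw [this]; exact (tri_mT b hb hb1).1
    · have : mat c (opB b) = mT b := by
        apply mat_of
        intro j
        funext k
        rw [Fin.sum_univ_four, hc, hc, hc, hc, hc]
        fin_cases j <;> fin_cases k <;> simp [opB_apply, vU, mT] <;> ring
      rw [this]; exact (tri_mT b hb hb1).2
  · have e1 : mat (Pi.basisFun K (Fin 4)) (opA b) = mT b := by
      unfold mat opA
      exact LinearMap.toMatrix'_toLin' _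
    have e2 : mat (Pi.basisFun K (Fin 4)) (opB b) = Matrix.diagonal (tD b) := by
      unfold mat opB
      exact LinearMap.toMatrix'_toLin' _
    refine ⟨Pi.basisFun K (Fin 4), tD b, e2, ?_, ?_, ratio_tD b q h⟩
    · rw [e1]; exact (tri_mT b hb hb1).1
    · rw [e1]; exact (tri_mT b hb hb1).2

def vC (b I p r : K) : Fin 4 → Fin 4 → K :=
  ![![1, -(I * r), -r, I], ![b + 1, -(I * r), r, -(I * (b + 1))],
    ![b + 1, I * p, p, I * (b + 1)], ![1, I * p, -p, -I]]

theorem li_vC (b I p r : K) (h2 : (2 : K) ≠ 0) (hI : I ≠ 0) (d0 : r * (b + 1) + p ≠ 0)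
    (d1 : r + p * (b + 1) ≠ 0) : LinearIndependent K (vC b I p r) := by
  apply li_of
  intro x0 x1 x2 x3 h
  have r0 := h 0
  have r1 := h 1
  have r2 := h 2
  have r3 := h 3
  simp [vC] at r0 r1 r2 r3
  have s1 : -r * x0 - r * x1 + p * x2 + p * x3 = 0 := by
    apply mul_left_cancel₀ hI
    linear_combination r1
  have s3 : x0 - (b + 1) * x1 + (b + 1) * x2 - x3 = 0 := by
    apply mul_left_cancel₀ hI
    linear_combination r3
  have e0 : x0 = -(b + 1) * x2 := by
    apply mul_left_cancel₀ h2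
    linear_combination r0 + s3
  have e3 : x3 = -(b + 1) * x1 := by
    apply mul_left_cancel₀ h2
    linear_combination r0 - s3
  have e2 : (r * (b + 1) + p) * x2 = 0 := by
    apply mul_left_cancel₀ h2
    linear_combination s1 + r2 + 2 * r * e0
  have e1 : (r + p * (b + 1)) * x1 = 0 := by
    apply mul_left_cancel₀ h2
    linear_combination r2 - s1 + 2 * p * e3
  have f2 : x2 = 0 := (mul_eq_zero.mp e2).resolve_left d0
  have f1 : x1 = 0 := (mul_eq_zero.mp e1).resolve_left d1
  subst f1 f2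
  exact ⟨by simpa using e0, rfl, rfl, by simpa using e3⟩

noncomputable def opE (K : Type) [Field K] : Module.End K (Fin 4 → K) :=
  Matrix.toLin' !![0, 0, 0, 1; 0, 0, -1, 0; 0, 1, 0, 0; -1, 0, 0, 0]

theorem opE_apply (v : Fin 4 → K) : opE K v = ![v 3, -v 2, v 1, -v 0] := by
  unfold opE
  rw [Matrix.toLin'_apply]
  ext i
  fin_cases i <;> simp [Matrix.mulVec, dotProduct, Fin.sum_univ_four]

theorem antiA (b : K) (v : Fin 4 → K) : opA b (opE K v) = - opE K (opA b v) := by
  rw [opA_apply, opA_apply, opE_apply, opE_apply]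
  funext i
  fin_cases i <;> simp <;> ring

theorem antiB (b : K) (v : Fin 4 → K) : opB b (opE K v) = - opE K (opB b v) := by
  rw [opB_apply, opB_apply, opE_apply, opE_apply]
  funext i
  fin_cases i <;> simp

theorem entry_zero (c : Basis (Fin 4) K (Fin 4 → K)) (e : Fin 4 → K)
    (he : ∀ i, opE K (c i) = e i • c i) (X : Module.End K (Fin 4 → K))
    (hX : ∀ v, X (opE K v) = - opE K (X v)) (i j : Fin 4) (hij : e i + e j ≠ 0) :
    mat c X i j = 0 := by
  have hE : mat c (opE K) = Matrix.diagonal e := by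
    apply mat_of
    intro j
    rw [he j]
    rw [Finset.sum_eq_single j]
    · rw [Matrix.diagonal_apply_eq]
    · intro k _ hk
      rw [Matrix.diagonal_apply_ne _ hk, zero_smul]
    · intro h; exact absurd (Finset.mem_univ _) h
  have h1 : mat c (X * opE K) = mat c X * Matrix.diagonal e := by
    rw [← hE]; exact LinearMap.toMatrix_mul c X (opE K)
  have h2 : mat c (opE K * X) = Matrix.diagonal e * mat c X := by
    rw [← hE]; exact LinearMap.toMatrix_mul c (opE K) X
  have h3 : X * opE K = - (opE K * X) := by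
    apply LinearMap.ext
    intro v
    exact hX v
  have h4 : mat c (X * opE K) = - mat c (opE K * X) := by
    rw [h3]
    unfold mat
    exact map_neg _ _
  rw [h1, h2] at h4
  have h5 := congrFun (congrFun h4 i) j
  rw [Matrix.mul_diagonal, Matrix.neg_apply, Matrix.diagonal_mul] at h5
  have h6 : (e i + e j) * mat c X i j = 0 := by linear_combination h5
  exact (mul_eq_zero.mp h6).resolve_left hij

theorem entry_of (c : Basis (Fin 4) K (Fin 4 → K)) (X : Module.End K (Fin 4 → K)) (i j k : Fin 4)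
    (m : K) (h : X (c j) = m • c k) (hik : k ≠ i) : mat c X i j = 0 := by
  unfold mat
  rw [LinearMap.toMatrix_apply, h, map_smul, Finsupp.smul_apply, Basis.repr_self,
    Finsupp.single_apply, if_neg hik, smul_zero]

theorem adm_of (c : Basis (Fin 4) K (Fin 4 → K)) (I : K) (hI : 2 * I ≠ 0)
    (he : ∀ i, opE K (c i) = (![I, -I, I, -I] : Fin 4 → K) i • c i)
    (X : Module.End K (Fin 4 → K)) (hX : ∀ v, X (opE K v) = - opE K (X v)) (m n : K)
    (h0 : X (c 0) = m • c 1) (h3 : X (c 3) = n • c 2) :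
    Tridiag (mat c X) ∧ ZeroDiag (mat c X) := by
  have hI1 : I + I ≠ 0 := by rwa [← two_mul]
  have hI2 : -I + -I ≠ 0 := by
    rw [← neg_add]; exact neg_ne_zero.mpr hI1
  constructor
  · intro i j hij
    fin_cases i <;> fin_cases j <;> simp at hij
    · exact entry_zero c _ he X hX _ _ (by simpa using hI1)
    · exact entry_of c X _ _ 2 n h3 (by decide)
    · exact entry_zero c _ he X hX _ _ (by simpa using hI2)
    · exact entry_zero c _ he X hX _ _ (by simpa using hI1)
    · exact entry_of c X _ _ 1 m h0 (by decide)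
    · exact entry_zero c _ he X hX _ _ (by simpa using hI2)
  · intro i
    fin_cases i
    · exact entry_zero c _ he X hX _ _ (by simpa using hI1)
    · exact entry_zero c _ he X hX _ _ (by simpa using hI2)
    · exact entry_zero c _ he X hX _ _ (by simpa using hI1)
    · exact entry_zero c _ he X hX _ _ (by simpa using hI2)

end

/-- Let `K` be a field of characteristic not `2` containing `I` with `I ^ 2 = -1`, and let
`q ∈ K` be nonzero with `q ^ 8 ≠ 1` and `q ^ 4 + q ^ 2 + 1 ≠ 0`.  Then there is a Leonard pair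
`A, B` of diameter `3` with zero `a_i, a*_i` and parameter `q`, and an admissible basis `c` which
is an eigenbasis of neither `q AB - q⁻¹ BA` nor `q⁻¹ AB - q BA`. -/
theorem result (K : Type) [Field K] (h2 : (2 : K) ≠ 0) (I : K) (hI : I ^ 2 = -1) (q : K)
    (hq : q ≠ 0) (h8 : q ^ 8 ≠ 1) (h3 : q ^ 4 + q ^ 2 + 1 ≠ 0) :
    ∃ A B : Module.End K (Fin 4 → K), IsBipartiteLeonardPair 4 A B q ∧
      ∃ c : Basis (Fin 4) K (Fin 4 → K), IsAdmissibleBasis A B c ∧
        ¬ IsEigenbasis (q • (A * B) - q⁻¹ • (B * A)) c ∧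
        ¬ IsEigenbasis (q⁻¹ • (A * B) - q • (B * A)) c := by
  obtain ⟨p, hp⟩ : ∃ p, p = q ^ 2 := ⟨_, rfl⟩
  obtain ⟨r, hr⟩ : ∃ r, r = (q ^ 2)⁻¹ := ⟨_, rfl⟩
  obtain ⟨b, hb⟩ : ∃ b, b = q ^ 2 + (q ^ 2)⁻¹ := ⟨_, rfl⟩
  have hp0 : p ≠ 0 := by rw [hp]; exact pow_ne_zero 2 hq
  have hpr : p * r = 1 := by rw [hp, hr]; exact mul_inv_cancel₀ (pow_ne_zero 2 hq)
  have hbp : b = p + r := by rw [hb, hp, hr]
  have hI0 : I ≠ 0 := by
    rintro rfl
    norm_num at hI
  have k1 : p + 1 ≠ 0 := by
    intro h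
    apply h8
    have : q ^ 8 = p ^ 4 := by rw [hp]; ring
    rw [this]
    linear_combination (p ^ 3 - p ^ 2 + p - 1) * h
  have k2 : p ^ 2 + 1 ≠ 0 := by
    intro h
    apply h8
    have : q ^ 8 = p ^ 4 := by rw [hp]; ring
    rw [this]
    linear_combination (p ^ 2 - 1) * h
  have k3 : p - 1 ≠ 0 := by
    intro h
    apply h8
    have : q ^ 8 = p ^ 4 := by rw [hp]; ring
    rw [this]
    linear_combination (p ^ 3 + p ^ 2 + p + 1) * h
  have k4 : p ^ 2 + p + 1 ≠ 0 := by
    intro h
    apply h3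
    rw [← h, hp]; ring
  have b0 : b ≠ 0 := by
    intro h
    apply k2
    linear_combination p * h - p * hbp - hpr
  have b1 : b + 1 ≠ 0 := by
    intro h
    apply k4
    linear_combination p * h - p * hbp - hpr
  have b2 : b + 2 ≠ 0 := by
    intro h
    apply pow_ne_zero 2 k1
    linear_combination p * h - p * hbp - hpr
  have prod : (p - 1) * (p + 1) ^ 3 * (p ^ 2 + 1) ≠ 0 :=
    mul_ne_zero (mul_ne_zero k3 (pow_ne_zero 3 k1)) k2
  have d0 : r * (b + 1) + p ≠ 0 := by
    intro h
    apply mul_ne_zero k1 k2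
    rw [hbp] at h
    linear_combination p ^ 2 * h - (p ^ 2 + p * r + 1 + p) * hpr
  have d1 : r + p * (b + 1) ≠ 0 := by
    intro h
    apply mul_ne_zero k1 k2
    rw [hbp] at h
    linear_combination p * h - (1 + p) * hpr
  obtain ⟨c, hc⟩ := exists_bas (vC b I p r) (li_vC b I p r h2 hI0 d0 d1)
  have he : ∀ i, opE K (c i) = (![I, -I, I, -I] : Fin 4 → K) i • c i := by
    intro i
    rw [hc, opE_apply]
    funext k
    fin_cases i <;> fin_cases k <;> simp [vC] <;>
      first
      | ring1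
      | linear_combination hI
      | linear_combination -hI
      | linear_combination r * hI
      | linear_combination (-r) * hI
      | linear_combination p * hI
      | linear_combination (-p) * hI
      | linear_combination (b + 1) * hI
      | linear_combination (-(b + 1)) * hI
  have A0 : opA b (c 0) = (-(I * r)) • c 1 := by
    rw [hc, hc, opA_apply]
    funext k
    fin_cases k <;> simp [vC]
    · ring
    · rw [hbp]; linear_combination -hpr - r ^ 2 * hI
    · rw [hbp]; linear_combination (-I) * hpr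
    · linear_combination -(b + 1) * r * hI
  have A3 : opA b (c 3) = (I * p) • c 2 := by
    rw [hc, hc, opA_apply]
    funext k
    fin_cases k <;> simp [vC]
    · ring
    · rw [hbp]; linear_combination -hpr - p ^ 2 * hI
    · rw [hbp]; linear_combination I * hpr
    · linear_combination -(b + 1) * p * hI
  have B0 : opB b (c 0) = (1 : K) • c 1 := by
    rw [hc, hc, opB_apply, one_smul]
    funext k
    fin_cases k <;> simp [vC] <;> ring
  have B3 : opB b (c 3) = (1 : K) • c 2 := by
    rw [hc, hc, opB_apply, one_smul]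
    funext k
    fin_cases k <;> simp [vC] <;> ring
  have aA := adm_of c I (mul_ne_zero h2 hI0) he (opA b) (antiA b) _ _ A0 A3
  have aB := adm_of c I (mul_ne_zero h2 hI0) he (opB b) (antiB b) _ _ B0 B3
  have hw : q * q⁻¹ = 1 := mul_inv_cancel₀ hq
  have hr2 : r = p⁻¹ := by rw [hr, hp]
  refine ⟨opA b, opB b, isLP b q hb h2 b0 b1 b2, c, ⟨aA.1, aA.2, aB.1, aB.2⟩, ?_, ?_⟩
  · intro h
    obtain ⟨m, hm⟩ := h 0
    simp only [LinearMap.sub_apply, LinearMap.smul_apply, Module.End.mul_apply] at hm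
    rw [A0, B0, map_smul, map_smul, hc, hc, opA_apply, opB_apply] at hm
    have g0 := congrFun hm 0
    have g1 := congrFun hm 1
    simp [vC] at g0 g1
    have eq1 : p * (b + 1 + b * r) + r ^ 2 + p * (b + 1) * r ^ 2 - r ^ 2 * (b + 1) ^ 2 = 0 := by
      linear_combination q * g1 + (q * I * r) * g0 + (b + 1 + b * r + (b + 1) * r ^ 2) * hp
        + (r ^ 2 + (b + 1) * r ^ 2 * q ^ 2 - r ^ 2 * (b + 1) ^ 2) * hI
        + (I ^ 2 * r ^ 2 - I ^ 2 * r ^ 2 * (b + 1) ^ 2) * hw
    rw [hbp, hr2] at eq1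
    field_simp at eq1
    apply prod
    linear_combination eq1
  · intro h
    obtain ⟨m, hm⟩ := h 3
    simp only [LinearMap.sub_apply, LinearMap.smul_apply, Module.End.mul_apply] at hm
    rw [A3, B3, map_smul, map_smul, hc, hc, opA_apply, opB_apply] at hm
    have g0 := congrFun hm 0
    have g1 := congrFun hm 1
    simp [vC] at g0 g1
    have eq1 : (b + 1 + b * p) + p ^ 3 + (b + 1) * p ^ 2 - p ^ 3 * (b + 1) ^ 2 = 0 := by
      linear_combination q * g1 - (q * I * p) * g0 - (b + 1 + b * p) * hw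
        + (p ^ 2 - p ^ 2 * (b + 1) ^ 2) * hp
        + (p ^ 2 * q ^ 2 + (b + 1) * p ^ 2 - p ^ 2 * (b + 1) ^ 2 * q ^ 2) * hI
        + (b + 1) * p ^ 2 * I ^ 2 * hw
    rw [hbp, hr2] at eq1
    field_simp at eq1
    apply prod
    linear_combination -eq1

end Pool.Agent.Results.MP_54d771_al.MixedBasis
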